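import Pool.Agent.Helper64.Rig.Goals

/-!
# PACKET Rank: local constancy of the dimensions of the fibres
-/

namespace Pool.Agent.Helper73.Rig

open MvPolynomial Module Pool.Agent.Helper64.Rig

section coords

variable {σ : Type} [Fintype σ] {A : Type} [CommRing A] (m : ℕ)

/-- Exponents of degree `m`. -/
abbrev Ix (σ : Type) (m : ℕ) : Type := {d : σ →₀ ℕ // d.degree = m}

noncomputable instance instFintypeIx : Fintype (Ix σ m) :=
  (Finsupp.finite_of_degree_eq (σ := σ) m).fintype

/-- The form with given coefficients. -/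
noncomputable def toPoly (v : Ix σ m → A) : MvPolynomial σ A := ∑ d, monomial d.1 (v d)

theorem toPoly_isHomogeneous (v : Ix σ m → A) : (toPoly m v).IsHomogeneous m :=
  IsHomogeneous.sum _ _ _ fun d _ => isHomogeneous_monomial _ d.2

theorem coeff_toPoly (v : Ix σ m → A) (d : Ix σ m) : coeff d.1 (toPoly m v) = v d := by
  classical
  rw [toPoly, coeff_sum]
  rw [Finset.sum_eq_single d]
  · rw [coeff_monomial, if_pos rfl]
  · intro b _ hb
    rw [coeff_monomial, if_neg]
    exact fun h => hb (Subtype.ext h)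
  · intro h
    exact absurd (Finset.mem_univ _) h

theorem eq_of_coeff {z z' : MvPolynomial σ A} (hz : z.IsHomogeneous m) (hz' : z'.IsHomogeneous m)
    (h : ∀ d : Ix σ m, coeff d.1 z = coeff d.1 z') : z = z' := by
  ext d
  by_cases hd : d.degree = m
  · exact h ⟨d, hd⟩
  · rw [hz.coeff_eq_zero hd, hz'.coeff_eq_zero hd]

theorem toPoly_coeff {z : MvPolynomial σ A} (hz : z.IsHomogeneous m) :
    toPoly m (fun d => coeff d.1 z) = z :=
  eq_of_coeff m (toPoly_isHomogeneous m _) hz fun d => coeff_toPoly m _ d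

/-- The coordinates on the space of the forms of degree `m`. -/
noncomputable def coords : homogeneousSubmodule σ A m ≃ₗ[A] (Ix σ m → A) where
  toFun z d := coeff d.1 z.1
  map_add' z z' := by ext d; simp
  map_smul' a z := by ext d; simp
  invFun v := ⟨toPoly m v, toPoly_isHomogeneous m v⟩
  left_inv z := Subtype.ext (toPoly_coeff m z.2)
  right_inv v := by ext d; exact coeff_toPoly m v d

end coords

section fib

variable {σ : Type} [Fintype σ] [DecidableEq σ] {R : Type} [CommRing R] [Algebra ℂ R]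
  (J : Ideal (MvPolynomial σ R)) (m : ℕ) (π : MvPolynomial σ R →ₗ[R] MvPolynomial σ R)

/-- The matrix of the projector. -/
noncomputable def mat : Matrix (Ix σ m) (Ix σ m) R :=
  fun d' d => coeff d'.1 (π (monomial d.1 1))

variable {m π}

theorem mat_mulVec {z : MvPolynomial σ R} (hz : z.IsHomogeneous m) :
    (mat m π).mulVec (fun d => coeff d.1 z) = fun d => coeff d.1 (π z) := by
  ext d'
  conv_rhs => rw [← toPoly_coeff m hz, toPoly, map_sum, coeff_sum]
  rw [Matrix.mulVec, dotProduct]
  refine Finset.sum_congr rfl fun d _ => ?_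
  have : (monomial d.1 (coeff d.1 z) : MvPolynomial σ R) = coeff d.1 z • monomial d.1 1 := by
    rw [smul_monomial, smul_eq_mul, mul_one]
  rw [this, map_smul, coeff_smul, smul_eq_mul, mul_comm]
  rfl

variable (hπ : ∀ z : MvPolynomial σ R, z.IsHomogeneous m →
      (π z).IsHomogeneous m ∧ z - π z ∈ J ∧ (z ∈ J → π z = 0))

include hπ in
theorem mat_idem : mat m π * mat m π = mat m π := by
  apply Matrix.toLin'.injective
  refine LinearMap.ext fun v => ?_
  have hv : v = fun d => coeff d.1 (toPoly m v) := by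
    ext d; exact (coeff_toPoly m v d).symm
  have hz := toPoly_isHomogeneous m v
  obtain ⟨h1, h2, -⟩ := hπ _ hz
  rw [Matrix.toLin'_apply, Matrix.toLin'_apply, ← Matrix.mulVec_mulVec, hv, mat_mulVec hz,
    mat_mulVec h1]
  have h3 := (hπ _ (hz.sub h1)).2.2 h2
  rw [map_sub, sub_eq_zero] at h3
  rw [← h3]

variable (hJ : Homog J)

theorem map_surj (x : R →ₐ[ℂ] ℂ) : Function.Surjective (x : R →+* ℂ) := fun c =>
  ⟨algebraMap ℂ R c, by simpa using x.commutes c⟩

include hJ in
theorem mem_fibre (x : R →ₐ[ℂ] ℂ) {G : MvPolynomial σ ℂ} (hG : G.IsHomogeneous m) :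
    G ∈ fibre J x ↔ ∃ F ∈ J, F.IsHomogeneous m ∧ MvPolynomial.map (x : R →+* ℂ) F = G := by
  rw [fibre, Ideal.mem_map_iff_of_surjective _ (MvPolynomial.map_surjective _ (map_surj x))]
  constructor
  · rintro ⟨F, hF, rfl⟩
    refine ⟨homogeneousComponent m F, hJ F hF m, homogeneousComponent_isHomogeneous m F, ?_⟩
    ext d
    rw [coeff_map, coeff_map, coeff_homogeneousComponent]
    split_ifs with h
    · rfl
    · rw [map_zero]
      have := hG.coeff_eq_zero h
      rw [coeff_map] at this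
      exact this.symm
  · rintro ⟨F, hF, -, h⟩
    exact ⟨F, hF, h⟩

include hπ hJ in
theorem mem_fibre_iff_mulVec (x : R →ₐ[ℂ] ℂ) {G : MvPolynomial σ ℂ} (hG : G.IsHomogeneous m) :
    G ∈ fibre J x ↔ ((mat m π).map x).mulVec (fun d => coeff d.1 G) = 0 := by
  have key : ∀ F : MvPolynomial σ R, F.IsHomogeneous m →
      ((mat m π).map x).mulVec (fun d => coeff d.1 (MvPolynomial.map (x : R →+* ℂ) F)) =
        fun d => x (coeff d.1 (π F)) := by
    intro F hF
    have h := mat_mulVec (π := π) hF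
    ext d
    have h1 := congrArg x (congrFun h d)
    rw [Matrix.mulVec, dotProduct] at h1 ⊢
    rw [map_sum] at h1
    rw [← h1]
    refine Finset.sum_congr rfl fun d' _ => ?_
    rw [Matrix.map_apply, coeff_map, map_mul]
    rfl
  rw [mem_fibre J hJ x hG]
  constructor
  · rintro ⟨F, hF, hF', rfl⟩
    rw [key F hF', (hπ F hF').2.2 hF]
    ext d
    simp
  · intro h
    let F : MvPolynomial σ R := MvPolynomial.map (algebraMap ℂ R) G
    have hFG : MvPolynomial.map (x : R →+* ℂ) F = G := by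
      rw [MvPolynomial.map_map]
      have : (x : R →+* ℂ).comp (algebraMap ℂ R) = RingHom.id ℂ := by
        ext c
        simpa using x.commutes c
      rw [this, MvPolynomial.map_id]
    have hF : F.IsHomogeneous m := hG.map _
    obtain ⟨h1, h2, -⟩ := hπ F hF
    refine ⟨F - π F, h2, hF.sub h1, ?_⟩
    rw [map_sub, hFG]
    have h3 : MvPolynomial.map (x : R →+* ℂ) (π F) = 0 := by
      refine eq_of_coeff m (h1.map _) (isHomogeneous_zero _ _ _) fun d => ?_
      have h4 := key F hF
      rw [hFG, h] at h4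
      have h5 := congrFun h4 d
      rw [coeff_map, coeff_zero]
      exact h5.symm
    rw [h3, sub_zero]

include hπ hJ in
theorem exists_trace : ∃ (t : R) (N : ℕ), ∀ x : R →ₐ[ℂ] ℂ, ∃ j : ℕ, x t = (j : ℂ) ∧
    finrank ℂ (part (fibre J x) m) + j = N := by
  classical
  refine ⟨(mat m π).trace, Fintype.card (Ix σ m), fun x => ?_⟩
  let P : Matrix (Ix σ m) (Ix σ m) ℂ := (mat m π).map x
  have hP : P * P = P := by
    have := congrArg (fun M : Matrix (Ix σ m) (Ix σ m) R => M.map x) (mat_idem J hπ)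
    simp only [Matrix.map_mul] at this
    exact this
  let f := Matrix.toLin' P
  have hf : IsIdempotentElem f := by
    show f * f = f
    have : f * f = Matrix.toLin' (P * P) := by
      rw [Matrix.toLin'_mul]; rfl
    rw [this, hP]
  refine ⟨finrank ℂ (LinearMap.range f), ?_, ?_⟩
  · rw [← (LinearMap.IsIdempotentElem.isProj_range f hf).trace, Matrix.trace_toLin'_eq]
    exact AddMonoidHom.map_trace (x : R →+ ℂ) (mat m π)
  · have h1 : (part (fibre J x) m).map (coords (σ := σ) (A := ℂ) m : _ →ₗ[ℂ] _) =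
        LinearMap.ker f := by
      ext v
      rw [LinearMap.mem_ker]
      constructor
      · rintro ⟨z, hz, rfl⟩
        exact (mem_fibre_iff_mulVec J hπ hJ x z.2).1 hz
      · intro h
        refine ⟨⟨toPoly m v, toPoly_isHomogeneous m v⟩, ?_, ?_⟩
        · refine (mem_fibre_iff_mulVec J hπ hJ x (toPoly_isHomogeneous m v)).2 ?_
          have hv : v = fun d => coeff d.1 (toPoly m v) := by
            ext d; exact (coeff_toPoly m v d).symm
          rw [← hv]
          exact h
        · exact (coords m).right_inv v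
    have h2 : finrank ℂ (part (fibre J x) m) = finrank ℂ (LinearMap.ker f) := by
      rw [← h1]
      exact (LinearEquiv.finrank_map_eq (coords m) _).symm
    have h3 := LinearMap.finrank_range_add_finrank_ker f
    rw [Module.finrank_fintype_fun_eq_card] at h3
    omega

end fib

/-- The values at the points of the product of the Lagrange factors. -/
theorem exists_idem {R : Type} [CommRing R] [Algebra ℂ R] (t : R) (N : ℕ)
    (ht : ∀ x : R →ₐ[ℂ] ℂ, ∃ j : ℕ, x t = (j : ℂ) ∧ j ≤ N) (k : ℕ) :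
    ∃ f : R, ∀ x : R →ₐ[ℂ] ℂ, (x t = (k : ℂ) → x f = 1) ∧ (x t ≠ (k : ℂ) → x f = 0) := by
  refine ⟨∏ j ∈ (Finset.range (N + 1)).erase k,
    (algebraMap ℂ R ((k : ℂ) - j)⁻¹ * (t - algebraMap ℂ R (j : ℂ))), fun x => ⟨fun h => ?_,
      fun h => ?_⟩⟩
  · rw [map_prod]
    refine Finset.prod_eq_one fun j hj => ?_
    have hjk : j ≠ k := (Finset.mem_erase.1 hj).1
    rw [map_mul, map_sub, x.commutes, x.commutes, h]
    have : ((k : ℂ) - j) ≠ 0 := by
      rw [sub_ne_zero]
      exact fun h => hjk (Nat.cast_injective h).symm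
    exact inv_mul_cancel₀ this
  · obtain ⟨j, hj, hjN⟩ := ht x
    rw [map_prod]
    refine Finset.prod_eq_zero (i := j) ?_ ?_
    · rw [Finset.mem_erase, Finset.mem_range]
      refine ⟨?_, by omega⟩
      rintro rfl
      exact h hj
    · rw [map_mul, map_sub, x.commutes, x.commutes, hj]
      simp

/-- The ideal of the elements vanishing at the points where `e` does not vanish. -/
def van {R : Type} [CommRing R] [Algebra ℂ R] (e : R) : Ideal R where
  carrier := {a | ∀ x : R →ₐ[ℂ] ℂ, x e ≠ 0 → x a = 0}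
  zero_mem' := fun x _ => map_zero x
  add_mem' := fun {a b} ha hb x hx => by rw [map_add, ha x hx, hb x hx, add_zero]
  smul_mem' := fun c a ha x hx => by rw [smul_eq_mul, map_mul, ha x hx, mul_zero]

theorem exists_minimal {R : Type} [CommRing R] [Algebra ℂ R] [IsNoetherianRing R]
    (x₀ : R →ₐ[ℂ] ℂ) : ∃ e : R, x₀ e = 1 ∧ ∀ f : R, (∀ x : R →ₐ[ℂ] ℂ, x f = 0 ∨ x f = 1) →
      x₀ f = 1 → ∀ x : R →ₐ[ℂ] ℂ, x e ≠ 0 → x f = 1 := by
  let S : Set (Ideal R) := {I | ∃ e : R, (∀ x : R →ₐ[ℂ] ℂ, x e = 0 ∨ x e = 1) ∧ x₀ e = 1 ∧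
    I = van e}
  have hS : S.Nonempty := ⟨van 1, 1, fun x => Or.inr (map_one x), map_one x₀, rfl⟩
  obtain ⟨I, ⟨e, he, he0, rfl⟩, hmax⟩ := set_has_maximal_iff_noetherian.2
    (inferInstance : IsNoetherian R R) S hS
  refine ⟨e, he0, fun f hf hf0 x hx => ?_⟩
  have h1 : van e ≤ van (e * f) := by
    intro a ha y hy
    refine ha y fun h => hy ?_
    rw [map_mul, h, zero_mul]
  have h2 : van (e * f) ∈ S := by
    refine ⟨e * f, fun y => ?_, by rw [map_mul, he0, hf0, mul_one], rfl⟩
    rw [map_mul]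
    rcases he y with h | h <;> rcases hf y with h' | h' <;> simp [h, h']
  have h3 : van e = van (e * f) := by
    by_contra hne
    exact hmax _ h2 (lt_of_le_of_ne h1 hne)
  have h4 : (1 - e * f) ∈ van (e * f) := by
    intro y hy
    rw [map_mul] at hy
    have hye : y e = 1 := (he y).resolve_left fun h => hy (by rw [h, zero_mul])
    have hyf : y f = 1 := (hf y).resolve_left fun h => hy (by rw [h, mul_zero])
    rw [map_sub, map_one, map_mul, hye, hyf, mul_one, sub_self]
  rw [← h3] at h4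
  have h5 := h4 x hx
  rw [map_sub, map_one, map_mul, (he x).resolve_left hx, one_mul, sub_eq_zero] at h5
  exact h5.symm

/-- PACKET Rank. -/
theorem pf_Rank (hSplit : StmtSplit) : StmtRank := by
  intro σ _ _ R _ _ _ J m₀ hJ hflat x₀
  haveI : IsNoetherianRing R := Algebra.FiniteType.isNoetherianRing ℂ R
  obtain ⟨e, he0, he⟩ := exists_minimal x₀
  refine ⟨e, by rw [he0]; exact one_ne_zero, fun x hx m hm => ?_⟩
  obtain ⟨π, hπ⟩ := hSplit σ R J m (hflat m hm)
  obtain ⟨t, N, ht⟩ := exists_trace J hπ hJ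
  obtain ⟨k, hk, hkN⟩ := ht x₀
  obtain ⟨f, hf⟩ := exists_idem t N (fun y => by
    obtain ⟨j, hj, hjN⟩ := ht y
    exact ⟨j, hj, by omega⟩) k
  have hfx : x f = 1 := he f (fun y => by
    by_cases h : y t = (k : ℂ)
    · exact Or.inr ((hf y).1 h)
    · exact Or.inl ((hf y).2 h)) ((hf x₀).1 hk) x hx
  have hxt : x t = (k : ℂ) := by
    by_contra h
    rw [(hf x).2 h] at hfx
    exact zero_ne_one hfx
  obtain ⟨j, hj, hjN⟩ := ht x
  rw [hxt] at hj
  have : k = j := Nat.cast_injective hj
  omega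

end Pool.Agent.Helper73.Rig
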