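import Pool.Agent.Helper64.Rig.Basics

/-!
# PACKET Ex: existence of the covering curve
-/

namespace Pool.Agent.Helper73.Rig

open MvPolynomial Module Pool.Agent.Helper64.Rig

section scaling

variable {τ : Type} {Ω : Type} [CommRing Ω] [Algebra ℂ Ω] (u : τ → Ω) (e : ℕ)

/-- Scaling of the variables in a form. -/
theorem aeval_scale_homog {d : ℕ} {G : MvPolynomial τ ℂ} (hG : G.IsHomogeneous d) :
    aeval (fun j => Polynomial.C (u j) * Polynomial.X ^ e) G =
      Polynomial.C (aeval u G) * Polynomial.X ^ (e * d) := by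
  classical
  rw [aeval_def, aeval_def, eval₂_eq, eval₂_eq, map_sum, Finset.sum_mul]
  refine Finset.sum_congr rfl fun m hm => ?_
  have hd : m.degree = d := degree_of_homog hG (mem_support_iff.1 hm)
  rw [map_mul, map_prod]
  have h1 : ∏ i ∈ m.support, (Polynomial.C (u i) * Polynomial.X ^ e) ^ m i =
      (∏ i ∈ m.support, Polynomial.C (u i ^ m i)) * Polynomial.X ^ (e * d) := by
    have h2 : ∏ i ∈ m.support, (Polynomial.X ^ (e * m i) : Polynomial Ω) =
        Polynomial.X ^ (e * d) := by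
      rw [Finset.prod_pow_eq_pow_sum, ← Finset.mul_sum, ← hd]
      rfl
    rw [← h2, ← Finset.prod_mul_distrib]
    refine Finset.prod_congr rfl fun i _ => ?_
    rw [mul_pow, map_pow, ← pow_mul]
  rw [h1, ← mul_assoc]
  rfl

theorem aeval_scale_coeff (he : 0 < e) (G : MvPolynomial τ ℂ) (d : ℕ) :
    (aeval (fun j => Polynomial.C (u j) * Polynomial.X ^ e) G).coeff (e * d) =
      aeval u (homogeneousComponent d G) := by
  conv_lhs => rw [← sum_homogeneousComponent G]
  rw [map_sum, Polynomial.finsetSum_coeff]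
  have h1 : ∀ i, (aeval (fun j => Polynomial.C (u j) * Polynomial.X ^ e)
      (homogeneousComponent i G)).coeff (e * d) = if i = d then aeval u (homogeneousComponent i G)
        else 0 := by
    intro i
    rw [aeval_scale_homog u e (homogeneousComponent_isHomogeneous i G),
      Polynomial.coeff_C_mul_X_pow]
    by_cases h : i = d
    · rw [if_pos h, if_pos (by rw [h])]
    · rw [if_neg h, if_neg]
      intro h2
      exact h (Nat.eq_of_mul_eq_mul_left he h2.symm)
  rw [Finset.sum_congr rfl fun i _ => h1 i, Finset.sum_ite_eq' (Finset.range (G.totalDegree + 1)) d]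
  split_ifs with h
  · rfl
  · rw [Finset.mem_range, not_lt] at h
    rw [homogeneousComponent_eq_zero _ _ (by omega), map_zero]

end scaling

theorem exists_roots (ζ : ℂ) (hζ : IsPrimitiveRoot ζ 5) :
    ∃ (Ω : Type) (_ : Field Ω) (_ : Algebra ℂ Ω) (y : Jx → Ω),
      (∀ j, y j ^ 5 + el ζ y j = 0) ∧ AlgebraicIndependent ℂ ![pr y 1, pr y 2] := by
  classical
  let B := FractionRing (MvPolynomial (Fin 2) ℂ)
  let Ω := AlgebraicClosure B
  let f : MvPolynomial (Fin 2) ℂ →ₐ[ℂ] Ω :=
    ((IsScalarTower.toAlgHom ℂ B Ω).comp (IsScalarTower.toAlgHom ℂ (MvPolynomial (Fin 2) ℂ) B))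
  have hf : Function.Injective f :=
    (algebraMap B Ω).injective.comp (IsFractionRing.injective (MvPolynomial (Fin 2) ℂ) B)
  have hind0 : AlgebraicIndependent ℂ (fun i => f (X i)) :=
    (MvPolynomial.algebraicIndependent_X (Fin 2) ℂ).map' hf
  let Y : Ω := f (X 0)
  let Z : Ω := f (X 1)
  have hY : Y ≠ 0 := fun h => X_ne_zero (R := ℂ) (0 : Fin 2) (hf (by rw [map_zero]; exact h))
  have hZ : Z ≠ 0 := fun h => X_ne_zero (R := ℂ) (1 : Fin 2) (hf (by rw [map_zero]; exact h))
  obtain ⟨P0, hP0⟩ := IsAlgClosed.exists_pow_nat_eq (-(Y ^ 5 + Z ^ 5)) (n := 5) (by norm_num)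
  have hYZ : Y ^ 5 + Z ^ 5 ≠ 0 := by
    intro h
    have h1 : f (X 0 ^ 5 + X 1 ^ 5) = f 0 := by
      rw [map_add, map_pow, map_pow, map_zero]; exact h
    have h2 := congrArg (eval ![(1 : ℂ), 0]) (hf h1)
    simp at h2
  have hP0' : P0 ≠ 0 := by
    rintro rfl
    apply hYZ
    rw [zero_pow (by norm_num)] at hP0
    exact neg_eq_zero.1 hP0.symm
  let P : Fin 3 → Ω := ![P0, Y, Z]
  have hP : ∀ i, P i ≠ 0 := by
    intro i
    fin_cases i
    · exact hP0'
    · exact hY
    · exact hZ
  have hsum : ∀ i, P i ^ 5 = -(P (i + 1) ^ 5 + P (i + 2) ^ 5) := by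
    intro i
    fin_cases i
    · exact hP0
    · show Y ^ 5 = -(Z ^ 5 + P0 ^ 5)
      rw [hP0]; ring
    · show Z ^ 5 = -(P0 ^ 5 + Y ^ 5)
      rw [hP0]; ring
  have hw : ∀ j : Jx, ∃ w : Ω, w ^ 5 =
      -(P (j.1 + 1) + algebraMap ℂ Ω (ζ ^ (j.2 : ℕ)) * P (j.1 + 2)) := fun j =>
    IsAlgClosed.exists_pow_nat_eq _ (by norm_num)
  choose w hw using hw
  have hprod : ∀ i, (∏ k : Fin 5, w (i, k)) ^ 5 = P i ^ 5 := by
    intro i
    rw [← Finset.prod_pow, hsum i, ← prod_add_zeta hζ (P (i + 1)) (P (i + 2))]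
    rw [Finset.prod_congr rfl fun k _ => hw (i, k)]
    rw [Finset.prod_neg]
    simp
    ring
  let ε : Fin 3 → Ω := fun i => P i / ∏ k : Fin 5, w (i, k)
  have hpr0 : ∀ i, (∏ k : Fin 5, w (i, k)) ≠ 0 := by
    intro i h
    have := hprod i
    rw [h, zero_pow (by norm_num)] at this
    exact hP i (pow_eq_zero_iff (by norm_num) |>.1 this.symm)
  have hε : ∀ i, ε i ^ 5 = 1 := by
    intro i
    rw [div_pow, hprod i, div_self (pow_ne_zero _ (hP i))]
  let y : Jx → Ω := fun j => (if j.2 = 0 then ε j.1 else 1) * w j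
  have hy5 : ∀ j, y j ^ 5 = w j ^ 5 := by
    intro j
    show ((if j.2 = 0 then ε j.1 else 1) * w j) ^ 5 = w j ^ 5
    rw [mul_pow]
    split_ifs
    · rw [hε, one_mul]
    · rw [one_pow, one_mul]
  have hpr : ∀ i, pr y i = P i := by
    intro i
    rw [pr, Finset.prod_mul_distrib]
    rw [Finset.prod_ite_eq' Finset.univ (0 : Fin 5) (fun _ => ε i)]
    rw [if_pos (Finset.mem_univ _)]
    exact div_mul_cancel₀ _ (hpr0 i)
  refine ⟨Ω, inferInstance, inferInstance, y, fun j => ?_, ?_⟩
  · rw [hy5, hw, el, hpr, hpr]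
    ring
  · have : ![pr y 1, pr y 2] = fun i => f (X i) := by
      funext i
      fin_cases i
      · exact hpr 1
      · exact hpr 2
    rw [this]
    exact hind0

/-- PACKET Ex. -/
theorem pf_Ex : StmtEx := by
  classical
  intro ζ hζ
  obtain ⟨Ω, _, _, y, hy, hind⟩ := exists_roots ζ hζ
  let L := FractionRing (Polynomial Ω)
  let φ : Polynomial Ω →ₐ[ℂ] L := IsScalarTower.toAlgHom ℂ (Polynomial Ω) L
  have hφ : Function.Injective φ := IsFractionRing.injective (Polynomial Ω) L
  let z : Jx → Polynomial Ω := fun j => Polynomial.C (y j) * Polynomial.X ^ 1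
  let F : IntermediateField ℂ L := IntermediateField.adjoin ℂ (Set.range fun j => φ (z j))
  let x : Jx → F := fun j => ⟨φ (z j), IntermediateField.subset_adjoin _ _ ⟨j, rfl⟩⟩
  have hval : ∀ G : MvPolynomial Jx ℂ, ((aeval x G : F) : L) = φ (aeval z G) := by
    intro G
    have h1 : (F.val.comp (aeval x)) = (φ.comp (aeval z)) := by
      apply MvPolynomial.algHom_ext
      intro j
      simp [x]
    exact DFunLike.congr_fun h1 G
  have hzero : ∀ G : MvPolynomial Jx ℂ, aeval x G = 0 ↔ aeval z G = 0 := by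
    intro G
    rw [← hφ.eq_iff, map_zero, ← hval G]
    exact Iff.symm (by simp)
  refine ⟨F, inferInstance, inferInstance, x, ?_⟩
  refine ⟨hζ, fun j => ?_, ?_, ?_, fun G hG d => ?_⟩
  · have h1 : aeval x (EE ζ j) = x j ^ 5 + el ζ x j := by
      simp [EE, el, pr]
    rw [← h1, hzero]
    have h2 : (EE ζ j).IsHomogeneous 5 := by
      unfold EE el
      have hp : ∀ i, (pr (X : Jx → MvPolynomial Jx ℂ) i).IsHomogeneous 5 := by
        intro i
        have := IsHomogeneous.prod (R := ℂ) (σ := Jx) Finset.univ (fun k : Fin 5 => X (i, k))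
          (fun _ => 1) fun k _ => isHomogeneous_X ℂ (i, k)
        simpa [pr] using this
      refine IsHomogeneous.add ?_ (IsHomogeneous.add (hp _) ?_)
      · simpa using (isHomogeneous_X ℂ j).pow 5
      · have := (isHomogeneous_C Jx (ζ ^ (j.2 : ℕ))).mul (hp (j.1 + 2))
        rw [zero_add] at this
        exact this
    rw [aeval_scale_homog y 1 h2]
    have h3 : aeval y (EE ζ j) = y j ^ 5 + el ζ y j := by
      simp [EE, el, pr]
    rw [h3, hy, map_zero, zero_mul]
  · apply IntermediateField.lift_injective F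
    rw [IntermediateField.lift_adjoin, IntermediateField.lift_top]
    congr 1
    ext a
    constructor
    · rintro ⟨_, ⟨j, rfl⟩, rfl⟩
      exact ⟨j, rfl⟩
    · rintro ⟨j, rfl⟩
      exact ⟨x j, ⟨j, rfl⟩, rfl⟩
  · rw [algebraicIndependent_iff]
    intro G hG
    -- substitute
    let g : MvPolynomial Jx ℂ := aeval ![pr X 1, pr X 2] G
    have h1 : aeval x g = 0 := by
      have h2 : (aeval x : MvPolynomial Jx ℂ →ₐ[ℂ] F).comp (aeval ![pr X 1, pr X 2]) =
          aeval ![pr x 1, pr x 2] := by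
        apply MvPolynomial.algHom_ext
        intro i
        fin_cases i <;> simp [pr]
      have h3 := DFunLike.congr_fun h2 G
      rw [AlgHom.comp_apply] at h3
      exact h3.trans hG
    rw [hzero] at h1
    have h4 : aeval z g = aeval (fun i => Polynomial.C ((![pr y 1, pr y 2] : Fin 2 → Ω) i) *
        Polynomial.X ^ 5) G := by
      have h2 : (aeval z : MvPolynomial Jx ℂ →ₐ[ℂ] Polynomial Ω).comp (aeval ![pr X 1, pr X 2]) =
          aeval (fun i => Polynomial.C ((![pr y 1, pr y 2] : Fin 2 → Ω) i) *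
            Polynomial.X ^ 5) := by
        apply MvPolynomial.algHom_ext
        intro i
        fin_cases i <;> simp [pr, z, Finset.prod_mul_distrib]
      exact DFunLike.congr_fun h2 G
    rw [h4] at h1
    have h5 : ∀ d, homogeneousComponent d G = 0 := by
      intro d
      have h6 := aeval_scale_coeff (![pr y 1, pr y 2] : Fin 2 → Ω) 5 (by norm_num) G d
      rw [h1, Polynomial.coeff_zero] at h6
      exact (algebraicIndependent_iff.1 hind) _ h6.symm
    rw [← sum_homogeneousComponent G]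
    exact Finset.sum_eq_zero fun d _ => h5 d
  · rw [hzero] at hG ⊢
    rw [aeval_scale_homog y 1 (homogeneousComponent_isHomogeneous d G),
      ← aeval_scale_coeff y 1 one_pos G d, hG]
    simp

end Pool.Agent.Helper73.Rig
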