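import Pool.Agent.Helper73.Rig.Ex

/-!
# PACKET Gr: the gradings
-/

namespace Pool.Agent.Helper73.Rig

open MvPolynomial Module Pool.Agent.Helper64.Rig

section

variable {K : Type} [Field K] [Algebra ℂ K] {ζ : ℂ} {x : Jx → K}

/-- Homogenisation: `G ↦ G(p T)`. -/
noncomputable def ps (x : Jx → K) : MvPolynomial (Fin 3) ℂ →ₐ[ℂ] Polynomial K :=
  aeval fun i => Polynomial.C (pr x i) * Polynomial.X ^ 1

/-- `G ↦ G(p T ^ 5)`. -/
noncomputable def ps5 (x : Jx → K) : MvPolynomial (Fin 3) ℂ →ₐ[ℂ] Polynomial K :=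
  aeval fun i => Polynomial.C (pr x i) * Polynomial.X ^ 5

/-- `G ↦ G(x T)`. -/
noncomputable def px (x : Jx → K) : MvPolynomial Jx ℂ →ₐ[ℂ] Polynomial K :=
  aeval fun j => Polynomial.C (x j) * Polynomial.X ^ 1

theorem ps_homog {G : MvPolynomial (Fin 3) ℂ} {d : ℕ} (hG : G.IsHomogeneous d) :
    ps x G = Polynomial.C (aeval (pr x) G) * Polynomial.X ^ d := by
  rw [ps, aeval_scale_homog _ 1 hG, one_mul]

theorem px_homog {G : MvPolynomial Jx ℂ} {d : ℕ} (hG : G.IsHomogeneous d) :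
    px x G = Polynomial.C (aeval x G) * Polynomial.X ^ d := by
  rw [px, aeval_scale_homog _ 1 hG, one_mul]

theorem ps_coeff (G : MvPolynomial (Fin 3) ℂ) (d : ℕ) :
    (ps x G).coeff d = aeval (pr x) (homogeneousComponent d G) := by
  have := aeval_scale_coeff (pr x) 1 one_pos G d
  rwa [one_mul] at this

theorem ps5_coeff (G : MvPolynomial (Fin 3) ℂ) (d : ℕ) :
    (ps5 x G).coeff (5 * d) = aeval (pr x) (homogeneousComponent d G) :=
  aeval_scale_coeff (pr x) 5 (by norm_num) G d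

theorem ps_eval (G : MvPolynomial (Fin 3) ℂ) : (ps x G).eval 1 = aeval (pr x) G := by
  have h : ((Polynomial.aeval (R := K) (1 : K)).restrictScalars ℂ).comp (ps x) =
      aeval (pr x) := by
    apply MvPolynomial.algHom_ext
    intro i
    simp [ps]
  have h2 := DFunLike.congr_fun h G
  rw [← h2]
  simp

theorem px_eq_zero (h : Cov ζ x) {G : MvPolynomial Jx ℂ} (hG : aeval x G = 0) : px x G = 0 := by
  ext d
  have := aeval_scale_coeff x 1 one_pos G d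
  rw [one_mul] at this
  rw [px, this, h.graded G hG d, Polynomial.coeff_zero]

theorem px_subst (G : MvPolynomial (Fin 3) ℂ) : px x (aeval (pr X) G) = ps5 x G := by
  have h : (px x).comp (aeval (pr X)) = ps5 x := by
    apply MvPolynomial.algHom_ext
    intro i
    simp [px, ps5, pr, Finset.prod_mul_distrib]
  exact DFunLike.congr_fun h G

theorem aeval_subst (G : MvPolynomial (Fin 3) ℂ) :
    aeval x (aeval (pr X) G : MvPolynomial Jx ℂ) = aeval (pr x) G := by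
  have h : (aeval x : MvPolynomial Jx ℂ →ₐ[ℂ] K).comp (aeval (pr X)) = aeval (pr x) := by
    apply MvPolynomial.algHom_ext
    intro i
    simp [pr]
  exact DFunLike.congr_fun h G

theorem graded3 (h : Cov ζ x) {G : MvPolynomial (Fin 3) ℂ} (hG : aeval (pr x) G = 0) (d : ℕ) :
    aeval (pr x) (homogeneousComponent d G) = 0 := by
  rw [← ps5_coeff, ← px_subst, px_eq_zero h (by rw [aeval_subst, hG]), Polynomial.coeff_zero]

theorem ps_eq_zero (h : Cov ζ x) {G : MvPolynomial (Fin 3) ℂ} (hG : aeval (pr x) G = 0) :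
    ps x G = 0 := by
  ext d
  rw [ps_coeff, graded3 h hG d, Polynomial.coeff_zero]

theorem ps_congr (h : Cov ζ x) {G G' : MvPolynomial (Fin 3) ℂ}
    (hG : aeval (pr x) G = aeval (pr x) G') : ps x G = ps x G' := by
  rw [← sub_eq_zero, ← map_sub]
  exact ps_eq_zero h (by rw [map_sub, hG, sub_self])

theorem mem_AA_of_ps {G : MvPolynomial (Fin 3) ℂ} {q : ℕ}
    (hG : ps x G = Polynomial.C (aeval (pr x) G) * Polynomial.X ^ q) :
    aeval (pr x) G ∈ AA x q := by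
  refine mem_AA.2 ⟨homogeneousComponent q G, homogeneousComponent_isHomogeneous q G, ?_⟩
  rw [← ps_coeff, hG, Polynomial.coeff_C_mul_X_pow, if_pos rfl]

theorem ps_ne {G : MvPolynomial (Fin 3) ℂ} (hG : aeval (pr x) G ≠ 0) : ps x G ≠ 0 := by
  intro h
  apply hG
  rw [← ps_eval, h, Polynomial.eval_zero]

theorem gr1 (h : Cov ζ x) : ∀ g ∈ AB x, ∀ (s : K) (d q : ℕ), s ∈ AA x d → s ≠ 0 →
    s * g ∈ AA x (d + q) → g ∈ AA x q := by
  intro g hg s d q hs hs0 hsg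
  obtain ⟨G, rfl⟩ := mem_AB.1 hg
  obtain ⟨S, hS, rfl⟩ := mem_AA.1 hs
  obtain ⟨H, hH, hH'⟩ := mem_AA.1 hsg
  have h1 : ps x (S * G) = ps x H := ps_congr h (by rw [map_mul, hH'])
  rw [map_mul, ps_homog hS, ps_homog hH, hH'] at h1
  apply mem_AA_of_ps
  have h2 : (Polynomial.C (aeval (pr x) S) * Polynomial.X ^ d : Polynomial K) ≠ 0 :=
    mul_ne_zero (Polynomial.C_ne_zero.2 hs0) (pow_ne_zero _ Polynomial.X_ne_zero)
  refine mul_left_cancel₀ h2 (h1.trans ?_)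
  rw [map_mul, pow_add]
  ring

theorem gr2 (h : Cov ζ x) : ∀ g ∈ AB x, ∀ q : ℕ, g ^ 5 ∈ AA x (5 * q) → g ∈ AA x q := by
  intro g hg q hq
  by_cases h0 : g = 0
  · rw [h0]; exact Submodule.zero_mem _
  obtain ⟨G, rfl⟩ := mem_AB.1 hg
  obtain ⟨H, hH, hH'⟩ := mem_AA.1 hq
  have h1 : ps x (G ^ 5) = ps x H := ps_congr h (by rw [map_pow, hH'])
  rw [map_pow, ps_homog hH, hH'] at h1
  have h2 : ps x G ∣ Polynomial.X ^ (5 * q) := by
    have h3 : ps x G ∣ Polynomial.C ((aeval (pr x) G) ^ 5) * Polynomial.X ^ (5 * q) := by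
      rw [← h1]
      exact dvd_pow_self _ (by norm_num)
    have h4 : IsUnit (Polynomial.C ((aeval (pr x) G) ^ 5) : Polynomial K) :=
      Polynomial.isUnit_C.2 (isUnit_iff_ne_zero.2 (pow_ne_zero _ h0))
    exact (h4.dvd_mul_left).1 h3
  obtain ⟨k, -, hk⟩ := (dvd_prime_pow Polynomial.prime_X _).1 h2
  obtain ⟨u, hu⟩ := hk.symm
  obtain ⟨a, ha, hau⟩ := Polynomial.isUnit_iff.1 u.isUnit
  have h5 : ps x G = Polynomial.C a * Polynomial.X ^ k := by
    rw [← hu, ← hau, mul_comm]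
  have h6 : a = aeval (pr x) G := by
    rw [← ps_eval, h5]
    simp
  rw [h6] at h5
  have h7 : k = q := by
    rw [h5, mul_pow, ← pow_mul, ← map_pow] at h1
    have h8 := congrArg (fun f => Polynomial.coeff f (k * 5)) h1
    simp only [Polynomial.coeff_C_mul_X_pow] at h8
    rw [if_pos trivial] at h8
    by_contra hne
    rw [if_neg (by omega)] at h8
    exact pow_ne_zero 5 h0 h8
  rw [h7] at h5
  exact mem_AA_of_ps h5

theorem gr3 (h : Cov ζ x) : ∀ g ∈ AB x, ∀ q : ℕ, g ∈ VV x (5 * q) → g ∈ AA x q := by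
  intro g hg q hq
  obtain ⟨G, rfl⟩ := mem_AB.1 hg
  obtain ⟨H, hH, hH'⟩ := mem_VV.1 hq
  have h1 : px x (aeval (pr X) G - H) = 0 := px_eq_zero h (by
    rw [map_sub, aeval_subst, hH', sub_self])
  rw [map_sub, sub_eq_zero, px_subst, px_homog hH, hH'] at h1
  refine mem_AA.2 ⟨homogeneousComponent q G, homogeneousComponent_isHomogeneous q G, ?_⟩
  rw [← ps5_coeff, h1, Polynomial.coeff_C_mul_X_pow, if_pos rfl]

theorem gr4 (h : Cov ζ x) : ∀ g ∈ KB x, g ≠ 0 → ∀ (s : K) (e d : ℕ), s ∈ AA x e → s ≠ 0 →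
    g ^ 5 * s ∈ AA x d →
    ∃ (m₁ m₂ : ℕ) (a₁ a₂ : K), a₁ ∈ AA x m₁ ∧ a₂ ∈ AA x m₂ ∧ a₁ ≠ 0 ∧ a₂ ≠ 0 ∧ g * a₂ = a₁ ∧
      5 * m₁ + e = d + 5 * m₂ := by
  intro g hg hg0 s e d hs hs0 ht
  obtain ⟨b₁, hb₁, b₂, hb₂, hb20, rfl⟩ := mem_KB_div hg
  have hb10 : b₁ ≠ 0 := by
    rintro rfl
    exact hg0 (zero_div _)
  obtain ⟨B₁, rfl⟩ := mem_AB.1 hb₁
  obtain ⟨B₂, rfl⟩ := mem_AB.1 hb₂
  obtain ⟨S, hS, rfl⟩ := mem_AA.1 hs
  obtain ⟨H, hH, hH'⟩ := mem_AA.1 ht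
  have h1 : ps x (B₁ ^ 5 * S) = ps x (H * B₂ ^ 5) := ps_congr h (by
    rw [map_mul, map_mul, map_pow, map_pow, hH', div_pow]
    field_simp)
  rw [map_mul, map_mul, map_pow, map_pow, ps_homog hS, ps_homog hH] at h1
  have hf1 := ps_ne hb10
  have hf2 := ps_ne hb20
  have hH0 : aeval (pr x) H ≠ 0 := by
    rw [hH']
    exact mul_ne_zero (pow_ne_zero _ hg0) hs0
  have hlc := congrArg Polynomial.leadingCoeff h1
  have hdeg := congrArg Polynomial.natDegree h1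
  simp only [Polynomial.leadingCoeff_mul, Polynomial.leadingCoeff_pow, Polynomial.leadingCoeff_C,
    Polynomial.leadingCoeff_X, one_pow, mul_one] at hlc
  rw [Polynomial.natDegree_mul (pow_ne_zero _ hf1)
    (mul_ne_zero (Polynomial.C_ne_zero.2 hs0) (pow_ne_zero _ Polynomial.X_ne_zero)),
    Polynomial.natDegree_mul
    (mul_ne_zero (Polynomial.C_ne_zero.2 hH0) (pow_ne_zero _ Polynomial.X_ne_zero))
    (pow_ne_zero _ hf2), Polynomial.natDegree_pow, Polynomial.natDegree_pow,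
    Polynomial.natDegree_C_mul_X_pow _ _ hs0, Polynomial.natDegree_C_mul_X_pow _ _ hH0] at hdeg
  have hl1 : (ps x B₁).leadingCoeff ≠ 0 := Polynomial.leadingCoeff_ne_zero.2 hf1
  have hl2 : (ps x B₂).leadingCoeff ≠ 0 := Polynomial.leadingCoeff_ne_zero.2 hf2
  have hm1 : (ps x B₁).leadingCoeff ∈ AA x (ps x B₁).natDegree :=
    mem_AA.2 ⟨_, homogeneousComponent_isHomogeneous _ B₁, (ps_coeff B₁ _).symm⟩
  have hm2 : (ps x B₂).leadingCoeff ∈ AA x (ps x B₂).natDegree :=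
    mem_AA.2 ⟨_, homogeneousComponent_isHomogeneous _ B₂, (ps_coeff B₂ _).symm⟩
  have h5 : (aeval (pr x) B₁ / aeval (pr x) B₂ * (ps x B₂).leadingCoeff /
      (ps x B₁).leadingCoeff) ^ 5 = algebraMap ℂ K 1 := by
    rw [map_one, div_pow, mul_pow, div_eq_one_iff_eq (pow_ne_zero _ hl1)]
    apply mul_right_cancel₀ hs0
    rw [hlc, hH']
    ring
  obtain ⟨c, hc⟩ := const_of_pow_five h5
  rw [div_eq_iff hl1] at hc
  refine ⟨_, _, algebraMap ℂ K c * (ps x B₁).leadingCoeff, _, const_mul_mem_AA c hm1, hm2, ?_,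
    hl2, hc, by omega⟩
  rw [← hc]
  exact mul_ne_zero hg0 hl2

end

/-- PACKET Gr, without hypotheses. -/
theorem pf_Gr0 : StmtGr := fun _ _ _ _ _ h => ⟨gr1 h, gr2 h, gr3 h, gr4 h⟩

/-- PACKET Gr. -/
theorem pf_Gr (_ : StmtKer) : StmtGr := pf_Gr0

end Pool.Agent.Helper73.Rig
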